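import Pool.Agent.U710.XP.H
import Pool.Agent.U710.XP.S
import Pool.Agent.U710.XP.P
import Pool.Agent.U710.XP.Q
import Pool.Agent.N625.PT.X20
import Pool.Agent.H141R2.FS.Main1

/-!
# EVERY large `n`, `4 ∤ n`: four squares with `p = x + 2 y + 5 z`, `p - 2 + N₀`, `p + 4 + N₁` and `p + 10 + N₂` prime, for
multiples `N_j` of integers near the values of functions which grow faster than any power

The even numbers `N_j = h_j M u_j`, where `M` is the product of the primes `≤ z` and the `u_j` are integers near values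
`⌊exp (α (log m) ^ γ + β)⌋`, `1 < γ < 3 / 2`.

From Mathlib: `primorial z`: the product of the primes `≤ z`; `Fintype.piFinset S`: the vectors `v` with `v j ∈ S j`.

Method (`Pool.Agent.U710.LE`, new): exponential sums over the values with Vinogradov's mean value theorem for a degree which
tends to infinity. They have power savings in `log` at ALL frequencies which are not close to integers, and quasi-exponential
savings at the rational numbers with small denominators. The passage to the numbers of primes (`main`) is from the file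
`WalkQuadruples` and from `Pool.Agent.U847.X*` (helper847), and from the starting files `Pool.Agent.N625.PT.X*`, with a
weaker condition at the rational numbers (`Pool.Agent.U710.XP`). The representations of `n` are those of the starting file
`Pool.Agent.H141R2.FS.Main1`.
-/

set_option autoImplicit false

namespace Pool.Agent.Results.MP_40574a_nt.SubexponentialQuadruples

open Finset Filter

/-- The sequence: `S α β γ m = ⌊exp (α (log m) ^ γ + β)⌋`. -/
noncomputable def S (α β γ : ℝ) (m : ℕ) : ℕ := ⌊Real.exp (α * Real.log m ^ γ + β)⌋₊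

/-- the product of `1 - 1/q` over the primes `q ≤ y` -/
noncomputable def V (y : ℕ) : ℝ := ∏ q ∈ (Icc 1 y).filter Nat.Prime, (1 - 1 / (q : ℝ))

/-- the multiple of the product of the primes `≤ y` given by the integers `h` and `c + κ v` -/
def Nv (y h : ℕ) (c κ : ℤ) (v : ℕ) : ℤ := ((primorial y * h : ℕ) : ℤ) * (c + κ * v)

/-- the primes `p` with `29 n ≤ p ^ 2 ≤ 30 n` such that `p - 2`, `p + 4`, `p + 10` are prime to `D 0`, `D 1`, `D 2` -/
def Adm (D : Fin 3 → ℕ) (n : ℕ) : Finset ℕ :=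
  (range (30 * n + 1)).filter (fun p : ℕ => 29 * n ≤ p ^ 2 ∧ p ^ 2 ≤ 30 * n ∧ p.Prime ∧
    (p - 2).Coprime (D 0) ∧ (p + 4).Coprime (D 1) ∧ (p + 10).Coprime (D 2))

open Classical in
/-- the primes `p` with `29 n ≤ p ^ 2 ≤ 30 n` which have the form `p = x + 2 y + 5 z` for a representation
`n = x² + y² + z² + w²`, and for which `p - 2 + N 0`, `p + 4 + N 1` and `p + 10 + N 2` are prime -/
noncomputable def Good (n : ℕ) (N : Fin 3 → ℤ) : Finset ℕ :=
  (range (30 * n + 1)).filter (fun p : ℕ => 29 * n ≤ p ^ 2 ∧ p ^ 2 ≤ 30 * n ∧ p.Prime ∧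
    (∃ x y z w : ℕ, n = x ^ 2 + y ^ 2 + z ^ 2 + w ^ 2 ∧ p = x + 2 * y + 5 * z) ∧
    ((p : ℤ) - 2 + N 0).toNat.Prime ∧ ((p : ℤ) + 4 + N 1).toNat.Prime ∧ ((p : ℤ) + 10 + N 2).toNat.Prime)

lemma cop_of {a D : ℕ} {N : ℤ} (ha : 1 ≤ a) (hD : 1 ≤ D) (hN : 0 < N) (hDN : (D : ℤ) ∣ N) (hp : (N + (a : ℤ)).toNat.Prime) :
    a.Coprime D := by
  by_contra hcop
  obtain ⟨q, hqp, hqa, hqb⟩ := Nat.Prime.not_coprime_iff_dvd.1 hcop
  have f1 : (q : ℤ) ∣ N + (a : ℤ) := dvd_add ((by exact_mod_cast hqb : (q : ℤ) ∣ (D : ℤ)).trans hDN) (by exact_mod_cast hqa)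
  have f0 : (1 : ℤ) ≤ a := by exact_mod_cast ha
  have f2 : (0 : ℤ) ≤ N + (a : ℤ) := by linarith
  have f3 : q ∣ (N + (a : ℤ)).toNat := by
    rw [← Int.natCast_dvd_natCast, Int.toNat_of_nonneg f2]
    exact f1
  have f4 := (Nat.prime_dvd_prime_iff_eq hqp hp).1 f3
  have f5 : (q : ℤ) ≤ D := by exact_mod_cast Nat.le_of_dvd (by omega) hqb
  have f6 : (D : ℤ) ≤ N := Int.le_of_dvd hN hDN
  have f7 : (q : ℤ) = N + (a : ℤ) := by rw [f4, Int.toNat_of_nonneg f2]
  linarith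


lemma class_exists (D : ℕ) (hD : 1 ≤ D) : ∃ a : ℕ, ∀ l : ℕ, l.Prime → l ∣ D →
    ¬ a ≡ 0 [MOD l] ∧ ¬ a ≡ 2 [MOD l] ∧ ¬ a + 4 ≡ 0 [MOD l] ∧ ¬ a + 10 ≡ 0 [MOD l] := by
  obtain ⟨a, ha⟩ := Nat.chineseRemainderOfFinset (fun l => if l = 5 ∨ l = 11 then 3 else 1) (fun l => l) D.primeFactors
    (fun l hl => (Nat.prime_of_mem_primeFactors hl).ne_zero) (by
      intro l hl l' hl' hne
      exact (Nat.coprime_primes (Nat.prime_of_mem_primeFactors hl) (Nat.prime_of_mem_primeFactors hl')).2 hne)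
  refine ⟨a, fun l hl hlD => ?_⟩
  have h1 := ha l (Nat.mem_primeFactors.2 ⟨hl, hlD, by omega⟩)
  by_cases h5 : l = 5
  · subst h5
    simp only [true_or, if_true] at h1
    unfold Nat.ModEq at h1 ⊢
    omega
  by_cases h11 : l = 11
  · subst h11
    simp only [or_true, if_true] at h1
    unfold Nat.ModEq at h1 ⊢
    omega
  simp only [h5, h11, or_self, if_false] at h1
  have hl1 := hl.one_lt
  refine ⟨fun h => ?_, fun h => ?_, fun h => ?_, fun h => ?_⟩
  · have h2 : 1 ≡ 0 [MOD l] := h1.symm.trans h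
    have h3 : l ∣ 1 := (Nat.modEq_zero_iff_dvd).1 h2
    exact hl1.ne' (Nat.dvd_one.1 h3)
  · have h2 : 1 ≡ 2 [MOD l] := h1.symm.trans h
    have h3 : l ∣ 2 - 1 := (Nat.modEq_iff_dvd' (by norm_num)).1 h2
    exact hl1.ne' (Nat.dvd_one.1 (by simpa using h3))
  · have h2 : 1 + 4 ≡ 0 [MOD l] := (h1.symm.add_right 4).trans h
    have h3 : l ∣ 5 := (Nat.modEq_zero_iff_dvd).1 h2
    exact h5 ((Nat.prime_dvd_prime_iff_eq hl (by norm_num)).1 h3)
  · have h2 : 1 + 10 ≡ 0 [MOD l] := (h1.symm.add_right 10).trans h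
    have h3 : l ∣ 11 := (Nat.modEq_zero_iff_dvd).1 h2
    exact h11 ((Nat.prime_dvd_prime_iff_eq hl (by norm_num)).1 h3)

lemma window_ok (n X Y : ℕ) (hX : X = Nat.sqrt (30 * n)) (hY : Y = Nat.sqrt (29 * n)) (hYbig : 1000 ≤ Y) : Y ≤ X ∧ X ≤ 64 * (X - Y) := by
  have a1 : 30 * n < (X + 1) * (X + 1) := by rw [hX]; exact Nat.lt_succ_sqrt _
  have a2 : Y * Y ≤ 29 * n := by rw [hY]; exact Nat.sqrt_le _
  have a3 : Y ≤ X := by rw [hX, hY]; exact Nat.sqrt_le_sqrt (by omega)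
  refine ⟨a3, ?_⟩
  by_contra hcon
  have a4 : 63 * X + 1 ≤ 64 * Y := by omega
  have a5 : 63 * (X + 1) ≤ 64 * Y + 62 := by omega
  have a6 : (63 * (X + 1)) * (63 * (X + 1)) ≤ (64 * Y + 62) * (64 * Y + 62) := Nat.mul_le_mul a5 a5
  nlinarith

lemma adm_low (K : ℕ) : ∃ X₀ : ℕ, ∀ n X : ℕ, X = Nat.sqrt (30 * n) → X₀ ≤ X → ∀ D : Fin 3 → ℕ, ∀ q : ℕ, 1 ≤ q → (∀ j, D j ∣ q) →
    (q : ℝ) ≤ Real.log X ^ K → (X : ℝ) / (256 * q * Real.log X) ≤ ((Adm D n).card : ℝ) := by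
  obtain ⟨X₀, h0⟩ := Pool.Agent.N625.PT.ap_window K 64 (by norm_num)
  refine ⟨max X₀ 2000, fun n X hX hX0 D q hq hDq hqL => ?_⟩
  obtain ⟨Y, hY⟩ : ∃ Y, Y = Nat.sqrt (29 * n) := ⟨_, rfl⟩
  have a0 : X * X ≤ 30 * n := by rw [hX]; exact Nat.sqrt_le _
  have a1 : 29 * n < (Y + 1) * (Y + 1) := by rw [hY]; exact Nat.lt_succ_sqrt _
  have hYbig : 1000 ≤ Y := by
    by_contra hcon
    have : Y + 1 ≤ 1000 := by omega
    have a3 : (Y + 1) * (Y + 1) ≤ 1000 * 1000 := Nat.mul_le_mul this this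
    have a4 : 2000 * 2000 ≤ X * X := Nat.mul_le_mul (by omega) (by omega)
    omega
  obtain ⟨w1, w2⟩ := window_ok n X Y hX hY hYbig
  obtain ⟨a, ha⟩ := class_exists q hq
  have hcop : a.Coprime q := by
    by_contra hcop
    obtain ⟨l, hlp, hla, hlb⟩ := Nat.Prime.not_coprime_iff_dvd.1 hcop
    exact (ha l hlp hlb).1 ((Nat.modEq_zero_iff_dvd).2 hla)
  have h1 := h0 X (by omega) q hq hqL a hcop Y w1 w2
  have h2 : ((Ioc Y X).filter (fun r : ℕ => r.Prime ∧ r ≡ a [MOD q])).card ≤ (Adm D n).card := by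
    apply card_le_card
    intro r hr
    rw [mem_filter, mem_Ioc] at hr
    obtain ⟨⟨g1, g2⟩, g3, g4⟩ := hr
    have e1 : (Y + 1) * (Y + 1) ≤ r * r := Nat.mul_le_mul g1 g1
    have e2 : r * r ≤ X * X := Nat.mul_le_mul g2 g2
    have e3 : r ^ 2 = r * r := sq r
    unfold Adm
    rw [mem_filter, mem_range, e3]
    refine ⟨?_, by omega, by omega, g3, ?_, ?_, ?_⟩
    · have : r ≤ r * r := Nat.le_mul_self r
      omega
    · by_contra hcop
      obtain ⟨l, hlp, hla, hlb⟩ := Nat.Prime.not_coprime_iff_dvd.1 hcop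
      apply (ha l hlp (hlb.trans (hDq 0))).2.1
      have e4 : 2 ≡ r [MOD l] := (Nat.modEq_iff_dvd' (by omega)).2 hla
      exact (g4.of_dvd (hlb.trans (hDq 0))).symm.trans e4.symm
    · by_contra hcop
      obtain ⟨l, hlp, hla, hlb⟩ := Nat.Prime.not_coprime_iff_dvd.1 hcop
      apply (ha l hlp (hlb.trans (hDq 1))).2.2.1
      exact ((g4.of_dvd (hlb.trans (hDq 1))).symm.add_right 4).trans ((Nat.modEq_zero_iff_dvd).2 hla)
    · by_contra hcop
      obtain ⟨l, hlp, hla, hlb⟩ := Nat.Prime.not_coprime_iff_dvd.1 hcop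
      apply (ha l hlp (hlb.trans (hDq 2))).2.2.2
      exact ((g4.of_dvd (hlb.trans (hDq 2))).symm.add_right 10).trans ((Nat.modEq_zero_iff_dvd).2 hla)
  have h3 : (((Ioc Y X).filter (fun r : ℕ => r.Prime ∧ r ≡ a [MOD q])).card : ℝ) ≤ ((Adm D n).card : ℝ) := by exact_mod_cast h2
  refine le_trans (le_of_eq ?_) (h1.trans h3)
  congr 1
  push_cast
  ring

set_option maxHeartbeats 2000000 in
open Classical in
/-- the law for classes of distributions -/
theorem main (b q₀ : ℕ) (hb : 2 ≤ b) (Cl : Fin 3 → ℕ → (ℕ → ℝ) → Prop) (hC : ∀ j, Pool.Agent.U710.XP.SCls b q₀ (Cl j)) :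
    ∀ κ : Fin 3 → ℤ, (∀ j, κ j ≠ 0) →
    ∀ (B J C K₁ : ℕ) (θ : ℝ), 0 < θ → ∀ ε : ℝ, 0 < ε → ε ≤ 1 → ∃ d₀ : ℕ, ∀ d : ℕ, d₀ ≤ d →
    ∀ μ : Fin 3 → ℕ → ℝ, (∀ j, Cl j d (μ j)) →
    ∀ y : ℕ, θ * Real.log d ≤ y → y ≤ K₁ * Real.log d →
    ∀ c : Fin 3 → ℤ, (∀ j, |c j| ≤ B * (b : ℤ) ^ d) → ∀ h : Fin 3 → ℕ, (∀ j, 1 ≤ h j ∧ h j ≤ d ^ J) →
    ∀ n : ℕ, ¬ 4 ∣ n → b ^ (2 * d) ≤ n * d ^ C → n ≤ b ^ (2 * d) * d ^ C →
      √(n : ℝ) ≤ ((Adm (fun j => primorial y * h j) n).card : ℝ) * (d : ℝ) ^ (6 * K₁ + 3 * J + 3) ∧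
      ∑ v ∈ Fintype.piFinset (fun _ : Fin 3 => range (b ^ d)), (if (∀ j, 0 < Nv y (h j) (c j) (κ j) (v j)) →
        |((Good n (fun j => Nv y (h j) (c j) (κ j) (v j))).card : ℝ) -
            (Adm (fun j => primorial y * h j) n).card / (V y * (d * Real.log b)) ^ 3| ≤
          ε * ((Adm (fun j => primorial y * h j) n).card / (V y * (d * Real.log b)) ^ 3) then 0 else ∏ j, μ j (v j)) ≤ ε := by
  classical
  intro κ hκ B J C K₁ θ hθ ε hε hε1
  obtain ⟨A, hA⟩ : ∃ A, A = 2 * K₁ + J := ⟨_, rfl⟩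
  obtain ⟨k₀, h0⟩ := Pool.Agent.U710.XP.tuple_law b q₀ hb 3 Cl hC κ hκ B J
    (3 * A + 4) (C + 2) K₁ θ hθ ε hε hε1
  obtain ⟨n0, hn0⟩ := adm_low (3 * A + 1)
  obtain ⟨k₁, h1⟩ := Pool.Agent.N625.PT.X_large b (C + 1) hb
  obtain ⟨k₂, h2⟩ := Pool.Agent.N625.PT.log_X b (C + 1) hb
  obtain ⟨k₃, h3⟩ := Pool.Agent.N625.PT.log_low b (C + 1) hb
  refine ⟨max (max k₀ k₁) (max (max k₂ k₃) (max 256 (max n0 (4 ^ (3 * A + 1))))), fun d hd μ hμ y hy1 hy2 c hc h hh n hn4 hx1 hx2 => ?_⟩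
  have b4 : 256 ≤ d := by omega
  have b5 : 4 ^ (3 * A + 1) ≤ d := by omega
  have hkr : (256 : ℝ) ≤ d := by exact_mod_cast b4
  have hk0 : (0 : ℝ) < d := by linarith
  obtain ⟨X, hX⟩ : ∃ X, X = Nat.sqrt (30 * n) := ⟨_, rfl⟩
  have a0 : X * X ≤ 30 * n := by rw [hX]; exact Nat.sqrt_le _
  have a1 : 30 * n < (X + 1) * (X + 1) := by rw [hX]; exact Nat.lt_succ_sqrt _
  have hd1 : 1 ≤ d ^ C := Nat.one_le_pow _ _ (by omega)
  have hbd : 1 ≤ b ^ d := Nat.one_le_pow _ _ (by omega)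
  have hn1 : 1 ≤ n := by
    rcases Nat.eq_zero_or_pos n with h | h
    · rw [h] at hn4
      exact absurd (dvd_zero 4) hn4
    · exact h
  have hX1' : b ^ d ≤ (X + 1) * d ^ C := by
    by_contra hcon
    have e1 : (X + 1) * d ^ C * ((X + 1) * d ^ C) < b ^ d * b ^ d := Nat.mul_lt_mul'' (by omega) (by omega)
    have e2 : b ^ (2 * d) = b ^ d * b ^ d := by rw [two_mul, pow_add]
    have e3 : n * d ^ C ≤ (X + 1) * d ^ C * ((X + 1) * d ^ C) := by
      calc n * d ^ C ≤ ((X + 1) * (X + 1)) * d ^ C := Nat.mul_le_mul_right _ (by omega)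
        _ ≤ ((X + 1) * (X + 1)) * (d ^ C * d ^ C) := Nat.mul_le_mul_left _ (Nat.le_mul_of_pos_left _ (by omega))
        _ = _ := by ring
    omega
  have hXpos : 1 ≤ X := by
    by_contra hcon
    have : X = 0 := by omega
    rw [this] at a1
    omega
  have hx1b : b ^ d ≤ X * d ^ (C + 1) := by
    calc b ^ d ≤ (X + 1) * d ^ C := hX1'
      _ ≤ (X * d) * d ^ C := Nat.mul_le_mul_right _ (by nlinarith)
      _ = _ := by rw [pow_succ]; ring
  have hx2b : X ≤ b ^ d * d ^ (C + 1) := by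
    by_contra hcon
    have e1 : b ^ d * d ^ (C + 1) * (b ^ d * d ^ (C + 1)) < X * X := Nat.mul_lt_mul'' (by omega) (by omega)
    have e2 : b ^ (2 * d) = b ^ d * b ^ d := by rw [two_mul, pow_add]
    have e3 : 30 * n ≤ b ^ d * d ^ (C + 1) * (b ^ d * d ^ (C + 1)) := by
      calc 30 * n ≤ (d * d) * (b ^ (2 * d) * d ^ C) := Nat.mul_le_mul (by nlinarith) hx2
        _ = (b ^ d * b ^ d) * (d * d * d ^ C) := by rw [e2]; ring
        _ ≤ (b ^ d * b ^ d) * (d * d * d ^ C * d ^ C) := Nat.mul_le_mul_left _ (Nat.le_mul_of_pos_right _ (by omega))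
        _ = _ := by rw [pow_succ]; ring
    omega
  have hkx := h1 d (by omega) X hx1b
  have hlx := h2 d (by omega) X hx2b
  have hll := h3 d (by omega) X hx1b
  have hln : 0 ≤ Real.log X := Real.log_natCast_nonneg X
  have hX00 : (0 : ℝ) ≤ X := Nat.cast_nonneg X
  have hDj : ∀ j, 1 ≤ primorial y * h j ∧ primorial y * h j ≤ d ^ A := by
    intro j
    refine ⟨Nat.mul_pos (primorial_pos y) (hh j).1, ?_⟩
    rw [hA]
    exact Pool.Agent.N625.PT.mult_small K₁ J d y (h j) (by omega) hy2 (hh j).2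
  obtain ⟨q, hq⟩ : ∃ q, q = (primorial y * h 0) * (primorial y * h 1) * (primorial y * h 2) := ⟨_, rfl⟩
  have hq1 : 1 ≤ q := by
    rw [hq]
    exact Nat.mul_pos (Nat.mul_pos (hDj 0).1 (hDj 1).1) (hDj 2).1
  have hDq : ∀ j, primorial y * h j ∣ q := by
    intro j
    rw [hq]
    fin_cases j
    · exact (dvd_mul_right _ _).mul_right _
    · exact (dvd_mul_left _ _).mul_right _
    · exact dvd_mul_left _ _
  have hqk : q ≤ d ^ (3 * A) := by
    rw [hq]
    calc (primorial y * h 0) * (primorial y * h 1) * (primorial y * h 2) ≤ d ^ A * d ^ A * d ^ A :=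
          Nat.mul_le_mul (Nat.mul_le_mul (hDj 0).2 (hDj 1).2) (hDj 2).2
      _ = _ := by ring
  have hqkr : (q : ℝ) ≤ (d : ℝ) ^ (3 * A) := by exact_mod_cast hqk
  have hqL : (q : ℝ) ≤ Real.log X ^ (3 * A + 1) := by
    refine hqkr.trans ?_
    have g2 : ((d : ℝ) / 4) ^ (3 * A + 1) ≤ Real.log X ^ (3 * A + 1) := pow_le_pow_left₀ (by positivity) hll _
    refine le_trans ?_ g2
    rw [div_pow, le_div_iff₀ (by positivity), pow_succ (d : ℝ)]
    have g3 : ((4 : ℝ)) ^ (3 * A + 1) ≤ d := by exact_mod_cast b5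
    exact mul_le_mul_of_nonneg_left g3 (by positivity)
  have hlow := hn0 n X hX (by omega) (fun j => primorial y * h j) q hq1 hDq hqL
  have hq0 : (0 : ℝ) < q := by exact_mod_cast (by omega : 0 < q)
  have hl0 : 0 < Real.log X := by
    have : 0 < (d : ℝ) / 4 := by positivity
    linarith
  obtain ⟨S, hS⟩ : ∃ S, S = Adm (fun j => primorial y * h j) n := ⟨_, rfl⟩
  rw [← hS] at hlow
  have hden : (X : ℝ) ≤ S.card * (d : ℝ) ^ (3 * A + 3) := by
    rw [div_le_iff₀ (by positivity)] at hlow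
    calc (X : ℝ) ≤ S.card * (256 * q * Real.log X) := hlow
      _ ≤ S.card * (d * (d : ℝ) ^ (3 * A) * (d : ℝ) ^ 2) := by gcongr
      _ = _ := by ring
  have hnX : √(n : ℝ) ≤ X := by
    rw [Real.sqrt_le_left hX00]
    have : n ≤ X ^ 2 := by nlinarith
    exact_mod_cast this
  refine ⟨by
    rw [← hS]
    refine (hnX.trans hden).trans (le_of_eq ?_)
    rw [hA]
    congr 2
    ring, ?_⟩
  have hS1 : ∀ p ∈ S, 29 * n ≤ p ^ 2 ∧ p ^ 2 ≤ 30 * n ∧ p.Prime ∧
    (p - 2).Coprime (primorial y * h 0) ∧ (p + 4).Coprime (primorial y * h 1) ∧ (p + 10).Coprime (primorial y * h 2) := by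
    intro p hp
    rw [hS] at hp
    unfold Adm at hp
    rw [mem_filter] at hp
    exact hp.2
  have hple : ∀ p : ℕ, p ^ 2 ≤ 30 * n → p ≤ X := by
    intro p hp
    rw [hX]
    exact Nat.le_sqrt'.2 hp
  have hpbig : ∀ p : ℕ, 29 * n ≤ p ^ 2 → 11 ≤ p := by
    intro p hp
    by_contra hcon
    have e1 : p * p ≤ 10 * 10 := Nat.mul_le_mul (by omega) (by omega)
    have e2 : 100 * 100 ≤ X * X := Nat.mul_le_mul (by omega) (by omega)
    rw [sq] at hp
    omega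
  obtain ⟨f, hf⟩ : ∃ f : Fin 3 → ℕ → ℕ, f = ![fun p => p - 2, fun p => p + 4, fun p => p + 10] := ⟨_, rfl⟩
  have hf0 : ∀ p, f 0 p = p - 2 := fun p => by rw [hf]; rfl
  have hf1 : ∀ p, f 1 p = p + 4 := fun p => by rw [hf]; rfl
  have hf2 : ∀ p, f 2 p = p + 10 := fun p => by rw [hf]; rfl
  have h5 := h0 d (by omega) μ hμ y hy1 hy2 c hc h hh (2 * X) (by
      refine hx1b.trans ?_
      exact Nat.mul_le_mul (by omega) (Nat.pow_le_pow_right (by omega) (by omega))) (by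
      calc 2 * X ≤ d * (b ^ d * d ^ (C + 1)) := Nat.mul_le_mul (by omega) hx2b
        _ = b ^ d * d ^ (C + 2) := by rw [pow_succ d (C + 1)]; ring) S f (by
      intro j p hp r hr hpr
      have e1 := hpbig p (hS1 p (by exact_mod_cast hp)).1
      have e2 := hpbig r (hS1 r (by exact_mod_cast hr)).1
      fin_cases j
      · have : f 0 p = f 0 r := hpr
        rw [hf0, hf0] at this
        omega
      · have : f 1 p = f 1 r := hpr
        rw [hf1, hf1] at this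
        omega
      · have : f 2 p = f 2 r := hpr
        rw [hf2, hf2] at this
        omega) (by
      intro j p hp
      obtain ⟨g1, g2, g3, g4, g5, g6⟩ := hS1 p hp
      have e1 := hpbig p g1
      have e2 := hple p g2
      fin_cases j
      · show 1 ≤ f 0 p ∧ f 0 p ≤ 2 * X ∧ (f 0 p).Coprime (primorial y * h 0)
        rw [hf0]
        exact ⟨by omega, by omega, g4⟩
      · show 1 ≤ f 1 p ∧ f 1 p ≤ 2 * X ∧ (f 1 p).Coprime (primorial y * h 1)
        rw [hf1]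
        exact ⟨by omega, by omega, g5⟩
      · show 1 ≤ f 2 p ∧ f 2 p ≤ 2 * X ∧ (f 2 p).Coprime (primorial y * h 2)
        rw [hf2]
        exact ⟨by omega, by omega, g6⟩) (by
      push_cast
      calc (2 : ℝ) * X ≤ d * (S.card * (d : ℝ) ^ (3 * A + 3)) := mul_le_mul (by linarith) hden hX00 hk0.le
        _ = _ := by ring) (fun _ => 1) (fun _ => Or.inl rfl)
  refine le_trans (sum_le_sum fun v _ => ?_) h5
  have hm0 : 0 ≤ ∏ j, μ j (v j) := prod_nonneg fun j _ => (hC j).nonneg _ _ (hμ j) _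
  rw [← hS]
  by_cases hgood : (∀ j, 0 < Nv y (h j) (c j) (κ j) (v j)) →
        |((Good n (fun j => Nv y (h j) (c j) (κ j) (v j))).card : ℝ) - S.card / (V y * (d * Real.log b)) ^ 3| ≤
          ε * (S.card / (V y * (d * Real.log b)) ^ 3)
  · rw [if_pos hgood]
    split_ifs
    · exact le_rfl
    · exact hm0
  · rw [if_neg hgood, if_neg]
    intro hall
    apply hgood
    intro hpos
    have hNm : ∀ j, Pool.Agent.N625.PT.Nm y (h j) (c j) (κ j) (v j) = Nv y (h j) (c j) (κ j) (v j) := fun _ => rfl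
    have h6 := hall (by
      intro j i hi
      have : (0 : ℤ) ≤ (f j i : ℤ) := Int.natCast_nonneg _
      rw [hNm]
      have := hpos j
      linarith) 3 le_rfl
    have hset : Good n (fun j => Nv y (h j) (c j) (κ j) (v j)) = S.filter (fun i => ∀ j : Fin 3, (j : ℕ) < 3 →
        (Pool.Agent.N625.PT.Nm y (h j) (c j) (κ j) (v j) + 1 * (f j i : ℕ)).toNat.Prime) := by
      have hDN : ∀ j, ((primorial y * h j : ℕ) : ℤ) ∣ Nv y (h j) (c j) (κ j) (v j) := fun j => by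
        unfold Nv
        exact dvd_mul_right _ _
      ext p
      unfold Good
      rw [mem_filter, mem_filter, mem_range]
      have e0 : 11 ≤ p → (p : ℤ) - 2 + Nv y (h 0) (c 0) (κ 0) (v 0) = Nv y (h 0) (c 0) (κ 0) (v 0) + ((p - 2 : ℕ) : ℤ) := by
        intro hp
        rw [Nat.cast_sub (by omega)]
        push_cast
        ring
      have e1 : (p : ℤ) + 4 + Nv y (h 1) (c 1) (κ 1) (v 1) = Nv y (h 1) (c 1) (κ 1) (v 1) + ((p + 4 : ℕ) : ℤ) := by
        push_cast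
        ring
      have e2 : (p : ℤ) + 10 + Nv y (h 2) (c 2) (κ 2) (v 2) = Nv y (h 2) (c 2) (κ 2) (v 2) + ((p + 10 : ℕ) : ℤ) := by
        push_cast
        ring
      constructor
      · rintro ⟨g0, g1, g2, g3, g4, g5, g6, g7⟩
        have hp11 := hpbig p g1
        simp only at g5 g6 g7
        rw [e0 hp11] at g5
        rw [e1] at g6
        rw [e2] at g7
        refine ⟨?_, ?_⟩
        · rw [hS]
          unfold Adm
          rw [mem_filter, mem_range]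
          exact ⟨g0, g1, g2, g3, cop_of (by omega) (hDj 0).1 (hpos 0) (hDN 0) g5, cop_of (by omega) (hDj 1).1 (hpos 1) (hDN 1) g6,
            cop_of (by omega) (hDj 2).1 (hpos 2) (hDN 2) g7⟩
        · intro j _
          rw [hNm, one_mul]
          fin_cases j
          · show (Nv y (h 0) (c 0) (κ 0) (v 0) + ((f 0 p : ℕ) : ℤ)).toNat.Prime
            rw [hf0]
            exact g5
          · show (Nv y (h 1) (c 1) (κ 1) (v 1) + ((f 1 p : ℕ) : ℤ)).toNat.Prime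
            rw [hf1]
            exact g6
          · show (Nv y (h 2) (c 2) (κ 2) (v 2) + ((f 2 p : ℕ) : ℤ)).toNat.Prime
            rw [hf2]
            exact g7
      · rintro ⟨g0, g1⟩
        obtain ⟨q1, q2, q3, q4, q5, q6⟩ := hS1 p g0
        have hp11 := hpbig p q1
        have r0 := g1 0 (by norm_num)
        have r1 := g1 1 (by norm_num)
        have r2 := g1 2 (by norm_num)
        rw [hNm, one_mul, hf0] at r0
        rw [hNm, one_mul, hf1] at r1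
        rw [hNm, one_mul, hf2] at r2
        have hcop30 : Nat.Coprime p 30 := by
          rw [Nat.Prime.coprime_iff_not_dvd q3]
          intro hdvd
          have hpr : p ∣ 2 * (3 * 5) := hdvd
          rcases (Nat.Prime.dvd_mul q3).1 hpr with h' | h'
          · have := Nat.le_of_dvd (by norm_num) h'
            omega
          · rcases (Nat.Prime.dvd_mul q3).1 h' with h'' | h''
            · have := Nat.le_of_dvd (by norm_num) h''
              omega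
            · have := Nat.le_of_dvd (by norm_num) h''
              omega
        obtain ⟨x, y', z, w, g8, g9⟩ := Pool.Agent.H141R2.FS.rep hn4 hcop30 q1 q2
        refine ⟨?_, q1, q2, q3, ⟨x, y', z, w, g8, g9.symm⟩, ?_, ?_, ?_⟩
        · have : p ≤ p ^ 2 := Nat.le_self_pow (by norm_num) p
          omega
        · simp only
          rw [e0 hp11]
          exact r0
        · simp only
          rw [e1]
          exact r1
        · simp only
          rw [e2]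
          exact r2
    rw [hset]
    exact h6

/-- the multiples `M h_j u_j` -/
def Nu (z : ℕ) (h : Fin 3 → ℕ) (u : Fin 3 → ℤ) (j : Fin 3) : ℤ := ((primorial z * h j : ℕ) : ℤ) * u j

open Classical in
/-- Let `S(m) = ⌊exp (α (log m) ^ γ + β)⌋`, `α > 0`, `1 < γ < 3/2` (it grows faster than any power of `m`, and has only `N ^ o(1)`
members up to `N`). Let `κ j ≠ 0`, `A`, `B`, `J`, `C`, `K₁`, `R` be integers, `θ > 0`, `0 < ε ≤ 1`, let `y` be large and
`L = log S(y)`. Let `y / (log y) ^ A ≤ w j ≤ y / log y`, let `z` be between `θ log L` and `K₁ log L` (`θ > 0` is arbitrary), `M`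
the product of the primes `≤ z`, `|c j| ≤ B S(y)`, `1 ≤ h j ≤ L ^ J`, and let `n` be ANY integer which is not divisible by `4`,
with `S(y) ^ 2 ≤ n L ^ C`, `n ≤ S(y) ^ 2 L ^ C`. Let `A` be the set of the primes `p` with `29 n ≤ p ^ 2 ≤ 30 n` such that
`p - 2`, `p + 4`, `p + 10` are prime to `M h_0`, `M h_1`, `M h_2`. It has at least `√n / L ^ (12 K₁ + 6 J + 6)` elements. All
but at most `ε w_0 w_1 w_2` of the vectors `(m_0, m_1, m_2)` of integers `m_j` in `(y - w_j, y]` are such that for ALL the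
vectors `(u_0, u_1, u_2)` of integers with `|u_j - (c_j + κ_j S(m_j))| ≤ R`: if all `N_j = M h_j u_j > 0`, then the number of
ALL primes `p` with `29 n ≤ p ^ 2 ≤ 30 n` such that `n = x² + y² + z² + w²` and `p = x + 2 y + 5 z` for some natural numbers,
and such that `p - 2 + N_0`, `p + 4 + N_1` and `p + 10 + N_2` are prime, differs from `E = #A / (V(z) L) ^ 3` by at most
`ε E`. -/
theorem result (α β γ : ℝ) (hα : 0 < α) (hγ1 : 1 < γ) (hγ2 : γ < 3 / 2) (κ : Fin 3 → ℤ) (hκ : ∀ j, κ j ≠ 0)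
    (A B J C K₁ R : ℕ) (θ : ℝ) (hθ : 0 < θ) (ε : ℝ) (hε : 0 < ε) (hε1 : ε ≤ 1) : ∀ᶠ y : ℕ in atTop, ∀ w : Fin 3 → ℕ,
    (∀ j, (y : ℝ) / Real.log y ^ A ≤ w j ∧ (w j : ℝ) ≤ y / Real.log y) →
    ∀ z : ℕ, θ * Real.log (Real.log (S α β γ y)) ≤ z → z ≤ K₁ * Real.log (Real.log (S α β γ y)) →
    ∀ c : Fin 3 → ℤ, (∀ j, |c j| ≤ B * (S α β γ y : ℕ)) →
    ∀ h : Fin 3 → ℕ, (∀ j, 1 ≤ h j ∧ (h j : ℝ) ≤ Real.log (S α β γ y) ^ J) →
    ∀ n : ℕ, ¬ 4 ∣ n → (S α β γ y : ℝ) ^ 2 ≤ n * Real.log (S α β γ y) ^ C → (n : ℝ) ≤ (S α β γ y : ℝ) ^ 2 * Real.log (S α β γ y) ^ C →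
    √(n : ℝ) ≤ ((Adm (fun j => primorial z * h j) n).card : ℝ) * Real.log (S α β γ y) ^ (12 * K₁ + 6 * J + 6) ∧
    (((Fintype.piFinset fun j => Ioc (y - w j) y).filter (fun m : Fin 3 → ℕ =>
      ¬ ∀ u : Fin 3 → ℤ, (∀ j, |u j - (c j + κ j * (S α β γ (m j) : ℕ))| ≤ R) → (∀ j, 0 < Nu z h u j) →
        |((Good n (Nu z h u)).card : ℝ) - (Adm (fun j => primorial z * h j) n).card / (V z * Real.log (S α β γ y)) ^ 3| ≤
          ε * ((Adm (fun j => primorial z * h j) n).card / (V z * Real.log (S α β γ y)) ^ 3))).card : ℝ) ≤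
      ε * ∏ j, (w j : ℝ) := by
  obtain ⟨ζ, σ, hζ, hζ1, hσ, hdist⟩ := Pool.Agent.U710.XP.ef_dist α β γ hα hγ1 hγ2 A
  obtain ⟨ε', hε'⟩ : ∃ ε' : ℝ, ε' = ε / (2 * (2 * R + 1) ^ 3) := ⟨_, rfl⟩
  have hR1 : (1 : ℝ) ≤ (2 * R + 1) ^ 3 := by
    have : (0 : ℝ) ≤ R := Nat.cast_nonneg R
    exact one_le_pow₀ (by linarith)
  have he0 : 0 < ε' := by rw [hε']; positivity
  have he2 : ε' ≤ ε / 2 := by
    rw [hε', ← div_div]
    exact div_le_self (by positivity) hR1
  obtain ⟨k₀, hk₀⟩ := main 2 0 le_rfl (fun _ => Pool.Agent.U710.XP.LD ζ σ (A + 4))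
    (fun _ => Pool.Agent.U710.XP.LD_scls ζ hζ hζ1 (A + 4) σ hσ) κ hκ
    (B + 1) J (C + 2) K₁ (θ / 2) (by positivity) ε' he0 (by linarith)
  obtain ⟨N₀, hN₀⟩ := Pool.Agent.U710.XP.scales2 J C 3 ε hε
  obtain ⟨y₀, hy₀⟩ := hdist (k₀ + N₀ + R + 20)
  filter_upwards [eventually_ge_atTop y₀] with y hy w hw z hz1 hz2 c hc h hh n hn4 hn1 hn2
  have hall := fun j => hy₀ y (w j) hy (hw j).1 (hw j).2
  obtain ⟨-, -, c3, c4, c5, -, -⟩ := hall 0
  obtain ⟨N, hN⟩ : ∃ N, N = S α β γ y := ⟨_, rfl⟩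
  have hN' : ⌊Pool.Agent.U710.LE.ef α β γ y⌋₊ = N := by rw [hN]; rfl
  rw [hN'] at c3 c4 c5 hall
  rw [← hN] at hz1 hz2 hc hh hn1 hn2 ⊢
  have hNN : N₀ ≤ N := by
    have h1 : Pool.Agent.U710.LE.dg N ≤ N := by
      unfold Pool.Agent.U710.LE.dg
      have := Nat.log_lt_self 2 (show N ≠ 0 by omega)
      omega
    omega
  obtain ⟨s1, s2, s3, s4, s5, s6, s7, s8, s9⟩ := hN₀ N hNN
  have hdl := Pool.Agent.U710.LE.dg_le_log N (by omega)
  obtain ⟨k, hk⟩ : ∃ k, k = Pool.Agent.U710.LE.dg N := ⟨_, rfl⟩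
  rw [← hk] at c4 c5 hall s3 s4 s5 s6 s7 s8 s9 hdl
  have hNk : N ≤ 2 ^ k := by rw [hk]; exact (Pool.Agent.U710.LE.lt_dg N).le
  have hkN : 2 ^ k ≤ 2 * N := by rw [hk]; exact Pool.Agent.U710.LE.dg_le N (by omega)
  have hRk : (R : ℤ) ≤ (2 : ℤ) ^ k := by
    have h1 : R ≤ 2 ^ k := (by omega : R ≤ k).trans (Nat.lt_pow_self (by norm_num)).le
    exact_mod_cast h1
  have hz1' : θ / 2 * Real.log k ≤ z := by
    refine le_trans ?_ hz1
    have h1 : θ / 2 * Real.log k ≤ θ / 2 * (2 * Real.log (Real.log N)) := mul_le_mul_of_nonneg_left s4 (by positivity)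
    linarith
  have hz2' : z ≤ K₁ * Real.log k := hz2.trans (mul_le_mul_of_nonneg_left s5 (Nat.cast_nonneg _))
  have hV : 0 < V z := Pool.Agent.H373R2.T7.Vz_pos z
  obtain ⟨L, hL⟩ : ∃ L, L = Real.log N := ⟨_, rfl⟩
  rw [← hL] at hn1 hn2 hh s2 s3 s4 s5 s6 s7 s8 s9 hdl ⊢
  have hL0 : 0 < L := by linarith
  have hk4 : (4 : ℝ) ≤ k := by exact_mod_cast (by omega : 4 ≤ k)
  have hk20 : (20 : ℝ) ≤ k := by exact_mod_cast (by omega : 20 ≤ k)
  have hNr : (N : ℝ) ≤ 2 ^ k := by exact_mod_cast hNk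
  have hkNr : (2 : ℝ) ^ k ≤ 2 * N := by exact_mod_cast hkN
  have hN0 : (0 : ℝ) ≤ N := Nat.cast_nonneg N
  have hkL : (k : ℝ) ≤ L ^ 2 := by nlinarith
  have hm1 : 2 ^ (2 * k) ≤ n * k ^ (C + 2) := by
    have h1 : (2 : ℝ) ^ (2 * k) ≤ n * (k : ℝ) ^ (C + 2) := by
      calc (2 : ℝ) ^ (2 * k) = ((2 : ℝ) ^ k) ^ 2 := by rw [mul_comm, pow_mul]
        _ ≤ (2 * N) ^ 2 := pow_le_pow_left₀ (by positivity) hkNr 2
        _ = 4 * (N : ℝ) ^ 2 := by ring
        _ ≤ 4 * (n * L ^ C) := by linarith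
        _ ≤ (k : ℝ) ^ 2 * (n * (k : ℝ) ^ C) := by
            apply mul_le_mul
            · nlinarith
            · exact mul_le_mul_of_nonneg_left (pow_le_pow_left₀ hL0.le s3 C) (Nat.cast_nonneg _)
            · positivity
            · positivity
        _ = _ := by rw [pow_add]; ring
    exact_mod_cast h1
  have hm2 : n ≤ 2 ^ (2 * k) * k ^ (C + 2) := by
    have h1 : (n : ℝ) ≤ (2 : ℝ) ^ (2 * k) * (k : ℝ) ^ (C + 2) := by
      calc (n : ℝ) ≤ (N : ℝ) ^ 2 * L ^ C := hn2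
        _ ≤ ((2 : ℝ) ^ k) ^ 2 * (k : ℝ) ^ (C + 2) := by
            apply mul_le_mul (pow_le_pow_left₀ hN0 hNr 2) _ (by positivity) (by positivity)
            exact (pow_le_pow_left₀ hL0.le s3 C).trans (pow_le_pow_right₀ (by linarith) (by omega))
        _ = _ := by rw [← pow_mul, mul_comm k 2]
    exact_mod_cast h1
  have hhk : ∀ j, 1 ≤ h j ∧ h j ≤ k ^ J := fun j => ⟨(hh j).1, s7 (h j) (hh j).2⟩
  have hcall : ∀ i : Fin 3 → ℤ, (∀ j, |i j| ≤ R) → ∀ j, |c j + i j| ≤ ((B + 1 : ℕ) : ℤ) * ((2 : ℕ) : ℤ) ^ k := by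
    intro i hi j
    have h2 : (N : ℤ) ≤ (2 : ℤ) ^ k := by exact_mod_cast hNk
    have h3 : (B : ℤ) * N ≤ B * (2 : ℤ) ^ k := mul_le_mul_of_nonneg_left h2 (Nat.cast_nonneg _)
    have h4 := hc j
    have h5 := hi j
    push_cast
    calc |c j + i j| ≤ |c j| + |i j| := abs_add_le _ _
      _ ≤ B * (2 : ℤ) ^ k + (2 : ℤ) ^ k := by linarith
      _ = _ := by ring
  have hk₀' := fun (i : Fin 3 → ℤ) (hi : ∀ j, |i j| ≤ R) => hk₀ k (by omega)
    (fun j => Pool.Agent.U710.XP.dist α β γ y (w j)) (fun j => (hall j).2.2.2.2.2.2) z hz1' hz2'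
    (fun j => c j + i j) (hcall i hi) h hhk n hn4 hm1 hm2
  constructor
  · have h1 := (hk₀' (fun _ => 0) (fun _ => by simp)).1
    refine h1.trans (mul_le_mul_of_nonneg_left ?_ (Nat.cast_nonneg _))
    calc (k : ℝ) ^ (6 * K₁ + 3 * J + 3) ≤ (L ^ 2) ^ (6 * K₁ + 3 * J + 3) := pow_le_pow_left₀ (by linarith) hkL _
      _ = L ^ (12 * K₁ + 6 * J + 6) := by rw [← pow_mul]; congr 1; ring
  obtain ⟨Bad, hBad⟩ : ∃ Bad : (Fin 3 → ℤ) → (Fin 3 → ℕ) → Prop, ∀ i v, Bad i v ↔ ¬ ((∀ j, 0 < Nv z (h j) (c j + i j) (κ j) (v j)) →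
        |((Good n (fun j => Nv z (h j) (c j + i j) (κ j) (v j))).card : ℝ) -
            (Adm (fun j => primorial z * h j) n).card / (V z * (k * Real.log (2 : ℕ))) ^ 3| ≤
          ε' * ((Adm (fun j => primorial z * h j) n).card / (V z * (k * Real.log (2 : ℕ))) ^ 3)) := ⟨_, fun _ _ => Iff.rfl⟩
  obtain ⟨I, hI⟩ : ∃ I : Finset (Fin 3 → ℤ), I = Fintype.piFinset (fun _ => Icc (-(R : ℤ)) R) := ⟨_, rfl⟩
  have hw0 : (0 : ℝ) < ∏ j, (w j : ℝ) := prod_pos fun j _ => by exact_mod_cast (hall j).1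
  have hone : ∀ i ∈ I, (((Fintype.piFinset fun j => Ioc (y - w j) y).filter
      (fun m : Fin 3 → ℕ => Bad i (fun j => S α β γ (m j)))).card : ℝ) ≤ ε' * ∏ j, (w j : ℝ) := by
    intro i hi
    rw [hI, Fintype.mem_piFinset] at hi
    have hi' : ∀ j, |i j| ≤ R := fun j => abs_le.2 (mem_Icc.1 (hi j))
    have h1 := (hk₀' i hi').2
    refine Pool.Agent.U710.XP.dist_pi (fun _ => α) (fun _ => β) (fun _ => γ) (fun _ => ζ) (fun _ => σ) (fun _ => A + 4) k
      (fun _ => y) w (fun j => (hall j).2.1) (fun j => (hall j).2.2.2.2.2.1) (Bad i) ε' (le_trans (le_of_eq ?_) h1)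
    refine sum_congr rfl fun v _ => ?_
    by_cases hq : Bad i v
    · rw [if_pos hq, if_neg]
      rw [hBad] at hq
      convert hq
    · rw [if_neg hq, if_pos]
      rw [hBad, not_not] at hq
      convert hq
  have hsub : (Fintype.piFinset fun j => Ioc (y - w j) y).filter (fun m : Fin 3 → ℕ =>
      ¬ ∀ u : Fin 3 → ℤ, (∀ j, |u j - (c j + κ j * (S α β γ (m j) : ℕ))| ≤ R) → (∀ j, 0 < Nu z h u j) →
        |((Good n (Nu z h u)).card : ℝ) - (Adm (fun j => primorial z * h j) n).card / (V z * L) ^ 3| ≤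
          ε * ((Adm (fun j => primorial z * h j) n).card / (V z * L) ^ 3)) ⊆
      I.biUnion fun i => (Fintype.piFinset fun j => Ioc (y - w j) y).filter
        (fun m : Fin 3 → ℕ => Bad i (fun j => S α β γ (m j))) := by
    intro m hm
    obtain ⟨hm1, hm2⟩ := mem_filter.1 hm
    push Not at hm2
    obtain ⟨u, g3, g4, g5⟩ := hm2
    rw [mem_biUnion]
    refine ⟨fun j => u j - (c j + κ j * (S α β γ (m j) : ℕ)), ?_, mem_filter.2 ⟨hm1, ?_⟩⟩
    · rw [hI, Fintype.mem_piFinset]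
      intro j
      exact mem_Icc.2 (abs_le.1 (g3 j))
    rw [hBad]
    have e1 : ∀ j, Nv z (h j) (c j + (u j - (c j + κ j * (S α β γ (m j) : ℕ)))) (κ j) (S α β γ (m j)) = Nu z h u j := by
      intro j
      unfold Nv Nu
      ring
    simp only [e1]
    intro hcon
    have h5 := hcon g4
    have h6 := s6 (Adm (fun j => primorial z * h j) n).card (V z) (Nat.cast_nonneg _) hV (Good n (Nu z h u)).card
    refine absurd (h6 ?_) (not_le.2 g5)
    refine le_trans (by exact_mod_cast h5) (mul_le_mul_of_nonneg_right he2 ?_)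
    have : (0 : ℝ) ≤ Real.log 2 := Real.log_nonneg (by norm_num)
    positivity
  calc _ ≤ ((I.biUnion fun i => (Fintype.piFinset fun j => Ioc (y - w j) y).filter
        (fun m : Fin 3 → ℕ => Bad i (fun j => S α β γ (m j)))).card : ℝ) := Nat.cast_le.2 (card_le_card hsub)
    _ ≤ ∑ i ∈ I, (((Fintype.piFinset fun j => Ioc (y - w j) y).filter
        (fun m : Fin 3 → ℕ => Bad i (fun j => S α β γ (m j)))).card : ℝ) := by
        exact_mod_cast card_biUnion_le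
    _ ≤ ∑ _i ∈ I, ε' * ∏ j, (w j : ℝ) := sum_le_sum hone
    _ = (2 * R + 1) ^ 3 * ε' * ∏ j, (w j : ℝ) := by
        rw [sum_const, nsmul_eq_mul, hI, Fintype.card_piFinset, prod_const, Int.card_Icc, card_univ, Fintype.card_fin]
        have : ((R : ℤ) + 1 - (-(R : ℤ))).toNat = 2 * R + 1 := by omega
        rw [this]
        push_cast
        ring
    _ = ε / 2 * ∏ j, (w j : ℝ) := by
        rw [hε']
        field_simp
    _ ≤ ε * ∏ j, (w j : ℝ) := mul_le_mul_of_nonneg_right (by linarith) hw0.le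

end Pool.Agent.Results.MP_40574a_nt.SubexponentialQuadruples
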